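import Pool.Agent.Y977.CH.Main

/-!
# MP_ab74d4_pr, Q2: the Hausdorff dimension of the non-Gaussian chaos on the circle

Q2 asks whether, for general i.i.d. centred coefficients of variance one (no further assumption on
their law) and small `γ > 0`, the Hausdorff dimension of the limit measure coincides with the one
of the Gaussian case.

The answer is no, and the exact condition is the logarithmic moment `E |ξ|² log (1 + |ξ|) < ∞`:

* if it is finite, the limit measure has almost surely dimension `1 - γ²/4` for `0 < γ < √2`, the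
  value of the Gaussian case;
* if it is infinite, the limit measure is almost surely the zero measure, for every `γ > 0`, hence
  its dimension is zero.

All definitions used in the statement are in this file. The coefficient called `ξ_k` in the problem
is `ξ (k - 1)` here.
-/

set_option autoImplicit false

namespace Pool.Agent.Results.MP_ab74d4_pr.DimensionDichotomy

open MeasureTheory ProbabilityTheory Filter Topology
open scoped ENNReal

/-- The unit circle `S¹ = {z ∈ ℂ : |z| = 1}`. -/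
abbrev Circ : Type := Metric.sphere (0 : ℂ) 1

/-- The point `e^{iθ}` of the unit circle. -/
noncomputable def expPt (θ : ℝ) : Circ :=
  ⟨Complex.exp (θ * Complex.I), by simp [Complex.norm_exp_ofReal_mul_I]⟩

/-- Lebesgue (arc length) measure on the unit circle. -/
noncomputable def arcLen : Measure Circ :=
  Measure.map expPt (volume.restrict (Set.Ioc (-Real.pi) Real.pi))

/-- The random polynomial `P_n(z) = ∑_{1 ≤ k ≤ n} k^{-1/2} ξ_k z^k`. -/
noncomputable def poly {Ω : Type*} (ξ : ℕ → Ω → ℂ) (n : ℕ) (ω : Ω) (z : Circ) : ℂ :=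
  ∑ k ∈ Finset.range n, ((1 / √((k : ℝ) + 1) : ℝ) : ℂ) * ξ k ω * (z : ℂ) ^ (k + 1)

/-- The density `exp (γ Re P_n(z) - (γ²/2) Var (Re P_n(z)))`. -/
noncomputable def density {Ω : Type*} {mΩ : MeasurableSpace Ω} (P : Measure Ω)
    (ξ : ℕ → Ω → ℂ) (γ : ℝ) (n : ℕ) (ω : Ω) (z : Circ) : ℝ :=
  Real.exp (γ * (poly ξ n ω z).re - γ ^ 2 / 2 * Var[fun ω' => (poly ξ n ω' z).re; P])

/-- The coefficients are i.i.d., centred, of variance one. -/
structure Coeff {Ω : Type*} {mΩ : MeasurableSpace Ω} (P : Measure Ω) (ξ : ℕ → Ω → ℂ) : Prop where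
  prob : IsProbabilityMeasure P
  meas : ∀ k, Measurable (ξ k)
  indep : iIndepFun ξ P
  ident : ∀ k, IdentDistrib (ξ k) (ξ 0) P P
  mean : ∫ ω, ξ 0 ω ∂P = 0
  var : ∫ ω, ‖ξ 0 ω‖ ^ 2 ∂P = 1

/-- `μlim` is the almost sure weak (= vague) limit of the random measures `μ_n` with density
`density P ξ γ n` with respect to arc length. -/
def ChaosLimit {Ω : Type*} {mΩ : MeasurableSpace Ω} (P : Measure Ω) (ξ : ℕ → Ω → ℂ) (γ : ℝ)
    (μlim : Ω → FiniteMeasure Circ) : Prop :=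
  ∃ μ : ℕ → Ω → FiniteMeasure Circ,
    (∀ n ω, (μ n ω : Measure Circ) =
      arcLen.withDensity (fun z => ENNReal.ofReal (density P ξ γ n ω z))) ∧
    ∀ᵐ ω ∂P, Tendsto (fun n => μ n ω) atTop (𝓝 (μlim ω))

/-- The Hausdorff dimension of a measure: the infimum of the Hausdorff dimensions of the Borel
sets whose complement is a null set. -/
noncomputable def dimMeas (μ : Measure Circ) : ℝ≥0∞ :=
  ⨅ (A : Set Circ) (_ : MeasurableSet A ∧ μ Aᶜ = 0), dimH A

lemma Coeff.toHyp {Ω : Type*} {mΩ : MeasurableSpace Ω} {P : Measure Ω} {ξ : ℕ → Ω → ℂ}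
    (h : Coeff P ξ) : Pool.Agent.Y977.CH.Hyp P ξ :=
  ⟨h.prob, h.meas, h.indep, h.ident, h.mean, h.var⟩

lemma toCoeff {Ω : Type*} {mΩ : MeasurableSpace Ω} {P : Measure Ω} {ξ : ℕ → Ω → ℂ}
    (h : Pool.Agent.Y977.CH.Hyp P ξ) : Coeff P ξ :=
  ⟨h.prob, h.meas, h.indep, h.ident, h.mean, h.var⟩

lemma main {Ω : Type*} {mΩ : MeasurableSpace Ω} (P : Measure Ω) (ξ : ℕ → Ω → ℂ)
    (h : Coeff P ξ) (γ : ℝ) (hγ : 0 < γ) (μlim : Ω → FiniteMeasure Circ)
    (hl : ChaosLimit P ξ γ μlim) :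
    (Integrable (fun ω => ‖ξ 0 ω‖ ^ 2 * Real.log (1 + ‖ξ 0 ω‖)) P → γ ^ 2 < 2 →
      ∀ᵐ ω ∂P, dimMeas (μlim ω : Measure Circ) = ENNReal.ofReal (1 - γ ^ 2 / 4)) ∧
    (¬ Integrable (fun ω => ‖ξ 0 ω‖ ^ 2 * Real.log (1 + ‖ξ 0 ω‖)) P →
      ∀ᵐ ω ∂P, μlim ω = 0 ∧ dimMeas (μlim ω : Measure Circ) = 0) := by
  obtain ⟨μ, hμ, hlim⟩ := hl
  exact Pool.Agent.Y977.CH.dichotomy P ξ h.toHyp γ hγ μ hμ μlim hlim

/-- **Answer to Q2.** (1) For i.i.d. centred coefficients with `E |ξ|² = 1` the limit measure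
exists, has almost surely Hausdorff dimension `1 - γ²/4` for all `0 < γ < √2` when
`E |ξ|² log (1 + |ξ|) < ∞`, and is almost surely the zero measure, of dimension zero, for all
`γ > 0` when `E |ξ|² log (1 + |ξ|) = ∞`. (2) In the Gaussian case the dimension is `1 - γ²/4`.
(3) There are real i.i.d. centred coefficients of variance one for which the limit measure is
almost surely zero for all `γ > 0`. -/
theorem result.{u} :
    (∀ (Ω : Type u) (_ : MeasurableSpace Ω) (P : Measure Ω) (ξ : ℕ → Ω → ℂ), Coeff P ξ →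
      ∀ γ : ℝ, 0 < γ →
        (∃ μlim : Ω → FiniteMeasure Circ, ChaosLimit P ξ γ μlim) ∧
        ∀ μlim : Ω → FiniteMeasure Circ, ChaosLimit P ξ γ μlim →
          (Integrable (fun ω => ‖ξ 0 ω‖ ^ 2 * Real.log (1 + ‖ξ 0 ω‖)) P → γ ^ 2 < 2 →
            ∀ᵐ ω ∂P, dimMeas (μlim ω : Measure Circ) = ENNReal.ofReal (1 - γ ^ 2 / 4)) ∧
          (¬ Integrable (fun ω => ‖ξ 0 ω‖ ^ 2 * Real.log (1 + ‖ξ 0 ω‖)) P →
            ∀ᵐ ω ∂P, μlim ω = 0 ∧ dimMeas (μlim ω : Measure Circ) = 0)) ∧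
    (∀ (Ω : Type u) (_ : MeasurableSpace Ω) (P : Measure Ω) (g : ℕ → Ω → ℝ),
      IsProbabilityMeasure P → (∀ k, Measurable (g k)) → iIndepFun g P →
      (∀ k, P.map (g k) = gaussianReal 0 1) →
        Coeff P (fun k ω => (g k ω : ℂ)) ∧
        ∀ γ : ℝ, 0 < γ → γ ^ 2 < 2 → ∀ μlim : Ω → FiniteMeasure Circ,
          ChaosLimit P (fun k ω => (g k ω : ℂ)) γ μlim →
            ∀ᵐ ω ∂P, dimMeas (μlim ω : Measure Circ) = ENNReal.ofReal (1 - γ ^ 2 / 4)) ∧
    (∃ (Ω : Type) (_ : MeasurableSpace Ω) (P : Measure Ω) (ξ : ℕ → Ω → ℝ),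
      Coeff P (fun k ω => (ξ k ω : ℂ)) ∧
      ∀ γ : ℝ, 0 < γ → ∀ μlim : Ω → FiniteMeasure Circ,
        ChaosLimit P (fun k ω => (ξ k ω : ℂ)) γ μlim →
          ∀ᵐ ω ∂P, μlim ω = 0 ∧ dimMeas (μlim ω : Measure Circ) = 0) := by
  refine ⟨?_, ?_, ?_⟩
  · intro Ω mΩ P ξ h γ hγ
    refine ⟨?_, fun μlim hl => main P ξ h γ hγ μlim hl⟩
    obtain ⟨μ, μlim, h1, h2⟩ := Pool.Agent.Y977.CH.exists_chaos P ξ h.toHyp γ
    exact ⟨μlim, μ, h1, h2⟩
  · intro Ω mΩ P g hP hm hind hlaw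
    obtain ⟨h, hlog⟩ := Pool.Agent.Y977.CH.gaussian_case P g hP hm hind hlaw
    exact ⟨toCoeff h, fun γ hγ hγ2 μlim hl => (main P _ (toCoeff h) γ hγ μlim hl).1 hlog hγ2⟩
  · obtain ⟨Ω, mΩ, P, ξ, h, hlog⟩ := Pool.Agent.Y977.CH.exists_heavy
    exact ⟨Ω, mΩ, P, ξ, toCoeff h, fun γ hγ μlim hl =>
      (main P _ (toCoeff h) γ hγ μlim hl).2 hlog⟩

end Pool.Agent.Results.MP_ab74d4_pr.DimensionDichotomy
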